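import Pool.Agent.Lib.MP_a31e1e_gt.Interfaces

/-!
# Project TIGHT, module GRADHULL

The second derivative estimate for `t ↦ Λ(ψ((1-t)x+ty))` and the supporting planes of the
perturbed body.
-/

open scoped ContDiff Manifold Topology RealInnerProductSpace
open Set Metric

namespace Pool.Agent.Tight.H50

noncomputable section

/-! ## Elementary algebra -/

lemma three_quad {p0 p1 p2 q0 q1 q2 : ℝ} (h0 : 0 < p0) (h1 : 0 < p1) (h2 : 0 < p2)
    (hq : q0 + q1 + q2 = 0) :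
    4 * (q0 * q1 * p2 + q0 * p1 * q2 + p0 * q1 * q2) * (p0 * p1 * p2)
      ≤ (q0 * p1 * p2 + p0 * q1 * p2 + p0 * p1 * q2) ^ 2 := by
  have hcase : q0 * q1 ≤ 0 ∨ q0 * q2 ≤ 0 ∨ q1 * q2 ≤ 0 := by
    by_contra hcon
    push Not at hcon
    obtain ⟨a, b, c⟩ := hcon
    nlinarith [sq_nonneg (q0 + q1 + q2), sq_nonneg q0, sq_nonneg q1, sq_nonneg q2]
  have h01 := mul_pos h0 h1
  have h02 := mul_pos h0 h2
  have h12 := mul_pos h1 h2
  rcases hcase with h | h | h
  · have : 0 ≤ -(q0 * q1) * (p0 * p1) * p2 ^ 2 := by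
      have := neg_nonneg.mpr h
      positivity
    nlinarith [sq_nonneg (q0 * p1 * p2 + p0 * q1 * p2 - p0 * p1 * q2)]
  · have : 0 ≤ -(q0 * q2) * (p0 * p2) * p1 ^ 2 := by
      have := neg_nonneg.mpr h
      positivity
    nlinarith [sq_nonneg (q0 * p1 * p2 + p0 * p1 * q2 - p0 * q1 * p2)]
  · have : 0 ≤ -(q1 * q2) * (p1 * p2) * p0 ^ 2 := by
      have := neg_nonneg.mpr h
      positivity
    nlinarith [sq_nonneg (p0 * q1 * p2 + p0 * p1 * q2 - q0 * p1 * p2)]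

/-- Estimate for the second derivative of `√T`. -/
lemma sqrt_second {p0 p1 p2 q0 q1 q2 r0 r1 r2 E S : ℝ} (h0 : 0 < p0) (h1 : 0 < p1)
    (h2 : 0 < p2) (hq : q0 + q1 + q2 = 0) (hp0 : p0 ≤ 20) (hp1 : p1 ≤ 20) (hp2 : p2 ≤ 20)
    (hr0 : |r0| ≤ 2 * E) (hr1 : |r1| ≤ 2 * E) (hr2 : |r2| ≤ 2 * E) (hS : 0 < S)
    (hS2 : S ^ 2 = 4 * (p0 * p1 * p2)) :
    4 * (r0 * p1 * p2 + p0 * r1 * p2 + p0 * p1 * r2
      + 2 * (q0 * q1 * p2 + q0 * p1 * q2 + p0 * q1 * q2)) / (2 * S)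
      - (4 * (q0 * p1 * p2 + p0 * q1 * p2 + p0 * p1 * q2)) ^ 2 / (4 * S ^ 3)
      ≤ 4800 * E / S := by
  have key := three_quad h0 h1 h2 hq
  have hE : 0 ≤ E := by
    have := abs_nonneg r0
    linarith
  set Q := q0 * q1 * p2 + q0 * p1 * q2 + p0 * q1 * q2 with hQ
  set R := q0 * p1 * p2 + p0 * q1 * p2 + p0 * p1 * q2 with hR
  have h12 : p1 * p2 ≤ 400 := by nlinarith
  have h02 : p0 * p2 ≤ 400 := by nlinarith
  have h01 : p0 * p1 ≤ 400 := by nlinarith
  have hb : r0 * p1 * p2 + p0 * r1 * p2 + p0 * p1 * r2 ≤ 2400 * E := by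
    have a0 : r0 * (p1 * p2) ≤ 2 * E * 400 := by
      have : r0 ≤ 2 * E := (le_abs_self _).trans hr0
      have hp : 0 < p1 * p2 := mul_pos h1 h2
      nlinarith
    have a1 : r1 * (p0 * p2) ≤ 2 * E * 400 := by
      have : r1 ≤ 2 * E := (le_abs_self _).trans hr1
      have hp : 0 < p0 * p2 := mul_pos h0 h2
      nlinarith
    have a2 : r2 * (p0 * p1) ≤ 2 * E * 400 := by
      have : r2 ≤ 2 * E := (le_abs_self _).trans hr2
      have hp : 0 < p0 * p1 := mul_pos h0 h1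
      nlinarith
    nlinarith
  have hk : 2 * Q * (4 * S ^ 2) ≤ (4 * R) ^ 2 / 2 := by
    rw [hS2]
    nlinarith
  have e1 : 4 * (r0 * p1 * p2 + p0 * r1 * p2 + p0 * p1 * r2 + 2 * Q) / (2 * S)
      - (4 * R) ^ 2 / (4 * S ^ 3)
      = 2 * (r0 * p1 * p2 + p0 * r1 * p2 + p0 * p1 * r2) / S
        + (2 * Q * (4 * S ^ 2) - (4 * R) ^ 2 / 2) / (2 * S ^ 3) := by
    field_simp
    ring
  rw [e1]
  have e2 : (2 * Q * (4 * S ^ 2) - (4 * R) ^ 2 / 2) / (2 * S ^ 3) ≤ 0 :=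
    div_nonpos_of_nonpos_of_nonneg (by linarith) (by positivity)
  have e3 : 2 * (r0 * p1 * p2 + p0 * r1 * p2 + p0 * p1 * r2) / S ≤ 4800 * E / S := by
    apply div_le_div_of_nonneg_right _ hS.le
    linarith
  linarith

/-! ## Curves in `E3` -/

/-- linear part of `ell j` -/
def ellD (j : Fin 3) (a : E3) : ℝ :=
  match j with
  | 0 => -a 1
  | 1 => (a 1 + √3 * a 0) / 2
  | 2 => (a 1 - √3 * a 0) / 2

lemma hasDerivAt_coord {c : ℝ → E3} {d : E3} {t : ℝ} (h : HasDerivAt c d t) (i : Fin 3) :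
    HasDerivAt (fun s => c s i) (d i) t := by
  have := (EuclideanSpace.proj (𝕜 := ℝ) i).hasFDerivAt.comp_hasDerivAt t h
  exact this

lemma hasDerivAt_ell {c : ℝ → E3} {d : E3} {t : ℝ} (h : HasDerivAt c d t) (j : Fin 3) :
    HasDerivAt (fun s => ell j (c s)) (ellD j d) t := by
  have h0 := hasDerivAt_coord h 0
  have h1 := hasDerivAt_coord h 1
  fin_cases j
  · exact h1.const_sub 1
  · exact ((h1.add (h0.const_mul (√3))).div_const 2).const_add 1
  · exact ((h1.sub (h0.const_mul (√3))).div_const 2).const_add 1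

lemma hasDerivAt_ellD {c : ℝ → E3} {d : E3} {t : ℝ} (h : HasDerivAt c d t) (j : Fin 3) :
    HasDerivAt (fun s => ellD j (c s)) (ellD j d) t := by
  have h0 := hasDerivAt_coord h 0
  have h1 := hasDerivAt_coord h 1
  fin_cases j
  · exact h1.neg
  · exact (h1.add (h0.const_mul (√3))).div_const 2
  · exact (h1.sub (h0.const_mul (√3))).div_const 2

lemma ellD_sum (a : E3) : ellD 0 a + ellD 1 a + ellD 2 a = 0 := by
  simp only [ellD]; ring

lemma sqrt3_le : √3 ≤ 2 := by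
  rw [Real.sqrt_le_left (by norm_num)]; norm_num

lemma abs_ellD_le (j : Fin 3) (a : E3) : |ellD j a| ≤ 2 * ‖a‖ := by
  have h0 : |a 0| ≤ ‖a‖ := by
    have := PiLp.norm_apply_le a 0
    rwa [Real.norm_eq_abs] at this
  have h1 : |a 1| ≤ ‖a‖ := by
    have := PiLp.norm_apply_le a 1
    rwa [Real.norm_eq_abs] at this
  have h3 : |√3 * a 0| ≤ 2 * ‖a‖ := by
    rw [abs_mul, abs_of_nonneg (Real.sqrt_nonneg 3)]
    exact mul_le_mul sqrt3_le h0 (abs_nonneg _) (by norm_num)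
  have hn := norm_nonneg a
  rw [abs_le] at h1 h3
  fin_cases j
  · show |-a 1| ≤ _
    rw [abs_neg, abs_le]; constructor <;> linarith [h1.1, h1.2]
  · show |(a 1 + √3 * a 0) / 2| ≤ _
    rw [abs_le]; constructor <;> linarith [h1.1, h1.2, h3.1, h3.2]
  · show |(a 1 - √3 * a 0) / 2| ≤ _
    rw [abs_le]; constructor <;> linarith [h1.1, h1.2, h3.1, h3.2]

lemma ell_le {a : E3} (j : Fin 3) (ha : ‖a‖ ≤ 12) : ell j a ≤ 20 := by
  have h0 : |a 0| ≤ ‖a‖ := by
    have := PiLp.norm_apply_le a 0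
    rwa [Real.norm_eq_abs] at this
  have h1 : |a 1| ≤ ‖a‖ := by
    have := PiLp.norm_apply_le a 1
    rwa [Real.norm_eq_abs] at this
  have h3 : |√3 * a 0| ≤ 2 * ‖a‖ := by
    rw [abs_mul, abs_of_nonneg (Real.sqrt_nonneg 3)]
    exact mul_le_mul sqrt3_le h0 (abs_nonneg _) (by norm_num)
  rw [abs_le] at h1 h3
  fin_cases j
  · show 1 - a 1 ≤ _
    linarith [h1.1, h1.2]
  · show 1 + (a 1 + √3 * a 0) / 2 ≤ _
    linarith [h1.1, h1.2, h3.1, h3.2]
  · show 1 + (a 1 - √3 * a 0) / 2 ≤ _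
    linarith [h1.1, h1.2, h3.1, h3.2]

/-- first derivative of `Λ` along a curve with position `c` and velocity `d` -/
def phi1 (c d : E3) : ℝ :=
  2 * (c 2 * d 2) + 6 * (c 0 * d 0 + c 1 * d 1)
    - 4 * (4 * (ellD 0 d * ell 1 c * ell 2 c + ell 0 c * ellD 1 d * ell 2 c
        + ell 0 c * ell 1 c * ellD 2 d) / (2 * √(4 * (ell 0 c * ell 1 c * ell 2 c))))

/-- second derivative of `Λ` along a curve -/
def phi2 (c d e : E3) : ℝ :=
  2 * (d 2 * d 2 + c 2 * e 2) + 6 * (d 0 * d 0 + c 0 * e 0 + (d 1 * d 1 + c 1 * e 1))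
    - 4 * (4 * (ellD 0 e * ell 1 c * ell 2 c + ell 0 c * ellD 1 e * ell 2 c
        + ell 0 c * ell 1 c * ellD 2 e
        + 2 * (ellD 0 d * ellD 1 d * ell 2 c + ellD 0 d * ell 1 c * ellD 2 d
          + ell 0 c * ellD 1 d * ellD 2 d)) / (2 * √(4 * (ell 0 c * ell 1 c * ell 2 c)))
      - (4 * (ellD 0 d * ell 1 c * ell 2 c + ell 0 c * ellD 1 d * ell 2 c
        + ell 0 c * ell 1 c * ellD 2 d)) ^ 2 / (4 * √(4 * (ell 0 c * ell 1 c * ell 2 c)) ^ 3))

lemma hasDerivAt_Lam (htt : ∀ x, tt x = 4 * (ell 0 x * ell 1 x * ell 2 x))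
    {c : ℝ → E3} {d : E3} {t : ℝ} (h : HasDerivAt c d t) (hc : c t ∈ PrismO) :
    HasDerivAt (fun s => Lam (c s)) (phi1 (c t) d) t := by
  have h0 := hasDerivAt_coord h 0
  have h1 := hasDerivAt_coord h 1
  have h2 := hasDerivAt_coord h 2
  have k0 := hasDerivAt_ell h 0
  have k1 := hasDerivAt_ell h 1
  have k2 := hasDerivAt_ell h 2
  have hT : HasDerivAt (fun s => 4 * (ell 0 (c s) * ell 1 (c s) * ell 2 (c s)))
      (4 * (ellD 0 d * ell 1 (c t) * ell 2 (c t) + ell 0 (c t) * ellD 1 d * ell 2 (c t)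
        + ell 0 (c t) * ell 1 (c t) * ellD 2 d)) t := by
    have := (((k0.mul k1).mul k2).const_mul 4)
    refine this.congr_deriv ?_
    simp only [Pi.mul_apply]
    ring
  have hpos : 0 < 4 * (ell 0 (c t) * ell 1 (c t) * ell 2 (c t)) := by
    have := hc 0; have := hc 1; have := hc 2
    positivity
  have hs := hT.sqrt hpos.ne'
  have hm : HasDerivAt (fun s => (c s 2) ^ 2 + 3 * ((c s 0) ^ 2 + (c s 1) ^ 2) - 9)
      (2 * (c t 2 * d 2) + 6 * (c t 0 * d 0 + c t 1 * d 1)) t := by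
    have := ((h2.pow 2).add (((h0.pow 2).add (h1.pow 2)).const_mul 3)).sub_const 9
    refine this.congr_deriv ?_
    simp
    ring
  have hfin := hm.sub (hs.const_mul 4)
  refine (hfin.congr_of_eventuallyEq ?_)
  filter_upwards with s
  simp only [Lam, mm, nn, htt, Pi.sub_apply]

lemma hasDerivAt_phi1 {c d : ℝ → E3} {e : E3} {t : ℝ} (h : HasDerivAt c (d t) t)
    (h' : HasDerivAt d e t) (hc : c t ∈ PrismO) :
    HasDerivAt (fun s => phi1 (c s) (d s)) (phi2 (c t) (d t) e) t := by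
  have h0 := hasDerivAt_coord h 0
  have h1 := hasDerivAt_coord h 1
  have h2 := hasDerivAt_coord h 2
  have k0 := hasDerivAt_ell h 0
  have k1 := hasDerivAt_ell h 1
  have k2 := hasDerivAt_ell h 2
  have h0' := hasDerivAt_coord h' 0
  have h1' := hasDerivAt_coord h' 1
  have h2' := hasDerivAt_coord h' 2
  have k0' := hasDerivAt_ellD h' 0
  have k1' := hasDerivAt_ellD h' 1
  have k2' := hasDerivAt_ellD h' 2
  have hT : HasDerivAt (fun s => 4 * (ell 0 (c s) * ell 1 (c s) * ell 2 (c s)))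
      (4 * (ellD 0 (d t) * ell 1 (c t) * ell 2 (c t) + ell 0 (c t) * ellD 1 (d t) * ell 2 (c t)
        + ell 0 (c t) * ell 1 (c t) * ellD 2 (d t))) t := by
    have := (((k0.mul k1).mul k2).const_mul 4)
    refine this.congr_deriv ?_
    simp only [Pi.mul_apply]
    ring
  have hpos : 0 < 4 * (ell 0 (c t) * ell 1 (c t) * ell 2 (c t)) := by
    have := hc 0; have := hc 1; have := hc 2
    positivity
  have hs := hT.sqrt hpos.ne'
  have hSpos : 0 < √(4 * (ell 0 (c t) * ell 1 (c t) * ell 2 (c t))) := Real.sqrt_pos.mpr hpos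
  have hT1 : HasDerivAt (fun s => 4 * (ellD 0 (d s) * ell 1 (c s) * ell 2 (c s)
        + ell 0 (c s) * ellD 1 (d s) * ell 2 (c s)
        + ell 0 (c s) * ell 1 (c s) * ellD 2 (d s)))
      (4 * (ellD 0 e * ell 1 (c t) * ell 2 (c t) + ell 0 (c t) * ellD 1 e * ell 2 (c t)
        + ell 0 (c t) * ell 1 (c t) * ellD 2 e
        + 2 * (ellD 0 (d t) * ellD 1 (d t) * ell 2 (c t)
          + ellD 0 (d t) * ell 1 (c t) * ellD 2 (d t)
          + ell 0 (c t) * ellD 1 (d t) * ellD 2 (d t)))) t := by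
    have := ((((k0'.mul k1).mul k2).add ((k0.mul k1').mul k2)).add
      ((k0.mul k1).mul k2')).const_mul 4
    refine this.congr_deriv ?_
    simp only [Pi.mul_apply]
    ring
  have hq := hT1.div (hs.const_mul 2) (by positivity)
  have hm : HasDerivAt (fun s => 2 * (c s 2 * d s 2) + 6 * (c s 0 * d s 0 + c s 1 * d s 1))
      (2 * (d t 2 * d t 2 + c t 2 * e 2)
        + 6 * (d t 0 * d t 0 + c t 0 * e 0 + (d t 1 * d t 1 + c t 1 * e 1))) t :=
    ((h2.mul h2').const_mul 2).add (((h0.mul h0').add (h1.mul h1')).const_mul 6)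
  have hfin := hm.sub (hq.const_mul 4)
  refine hfin.congr_deriv ?_
  simp only [phi2]
  congr 2
  set S := √(4 * (ell 0 (c t) * ell 1 (c t) * ell 2 (c t))) with hS
  field_simp
  ring

lemma phi2_lower {c d e : E3} {E : ℝ} (hc : c ∈ PrismO) (hcn : ‖c‖ ≤ 12) (he : ‖e‖ ≤ E) :
    2 * ‖d‖ ^ 2 - 168 * E - 19200 * E / √(4 * (ell 0 c * ell 1 c * ell 2 c)) ≤ phi2 c d e := by
  have hpos : 0 < 4 * (ell 0 c * ell 1 c * ell 2 c) := by
    have := hc 0; have := hc 1; have := hc 2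
    positivity
  have hSpos : 0 < √(4 * (ell 0 c * ell 1 c * ell 2 c)) := Real.sqrt_pos.mpr hpos
  have hr : ∀ j, |ellD j e| ≤ 2 * E := fun j => (abs_ellD_le j e).trans (by linarith)
  have key := sqrt_second (hc 0) (hc 1) (hc 2) (ellD_sum d) (ell_le 0 hcn) (ell_le 1 hcn)
    (ell_le 2 hcn) (hr 0) (hr 1) (hr 2) hSpos (Real.sq_sqrt hpos.le)
  have hE : 0 ≤ E := (norm_nonneg e).trans he
  have hprod : ∀ i, -(12 * E) ≤ c i * e i := by
    intro i
    have h0 : |c i| ≤ 12 := by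
      have := PiLp.norm_apply_le c i
      rw [Real.norm_eq_abs] at this
      linarith
    have h1 : |e i| ≤ E := by
      have := PiLp.norm_apply_le e i
      rw [Real.norm_eq_abs] at this
      linarith
    have h2 : |c i * e i| ≤ 12 * E := by
      rw [abs_mul]
      exact mul_le_mul h0 h1 (abs_nonneg _) (by norm_num)
    exact (abs_le.mp h2).1
  have hd : ‖d‖ ^ 2 = d 0 ^ 2 + d 1 ^ 2 + d 2 ^ 2 := by
    rw [EuclideanSpace.real_norm_sq_eq, Fin.sum_univ_three]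
  have p0 := hprod 0
  have p1 := hprod 1
  have p2 := hprod 2
  have e1 : 19200 * E / √(4 * (ell 0 c * ell 1 c * ell 2 c))
      = 4 * (4800 * E / √(4 * (ell 0 c * ell 1 c * ell 2 c))) := by ring
  rw [e1, phi2]
  nlinarith [sq_nonneg (d 0), sq_nonneg (d 1), sq_nonneg (d 2)]

/-! ## Constants -/

lemma continuous_tt : Continuous tt := by
  unfold tt nn cc
  fun_prop

lemma continuous_flc (l : ℝ) : Continuous (flc l) := by
  unfold flc nn WW cc
  fun_prop

lemma continuous_flr : Continuous flr := by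
  unfold flr nn
  fun_prop

lemma varpi_nonneg (l : ℝ) (z : E3) : 0 ≤ varpi l z := by
  unfold varpi flc flr nn
  positivity

lemma weight_bounds (l : ℝ) : ∃ A ≥ 1, ∀ z : E3, ‖z‖ ≤ 10 →
    varpi l z ≤ A ∧ (0 ≤ tt z → varpi l z ≤ A * tt z) := by
  have c1 : Continuous (varpi l) := by
    unfold varpi
    have := continuous_tt; have := continuous_flc l; have := continuous_flr
    fun_prop
  have c2 : Continuous (fun z => tt z * flc l z * flr z) := by
    have := continuous_tt; have := continuous_flc l; have := continuous_flr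
    fun_prop
  obtain ⟨A1, h1⟩ := (isCompact_closedBall (0 : E3) 10).exists_bound_of_continuousOn
    c1.continuousOn
  obtain ⟨A2, h2⟩ := (isCompact_closedBall (0 : E3) 10).exists_bound_of_continuousOn
    c2.continuousOn
  refine ⟨max 1 (max A1 A2), le_max_left _ _, fun z hz => ?_⟩
  have hz' : z ∈ closedBall (0 : E3) 10 := by simpa using hz
  have b1 := h1 z hz'
  have b2 := h2 z hz'
  rw [Real.norm_eq_abs] at b1 b2
  constructor
  · exact (le_abs_self _).trans (b1.trans ((le_max_left _ _).trans (le_max_right _ _)))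
  · intro ht
    have e1 : varpi l z = (tt z * flc l z * flr z) * tt z := by
      unfold varpi; ring
    rw [e1]
    exact mul_le_mul_of_nonneg_right
      ((le_abs_self _).trans (b2.trans ((le_max_right _ _).trans (le_max_right _ _)))) ht

lemma PsiOK.mono {ϖ : E3 → ℝ} {ε ε' : ℝ} {ψ θ : E3 → E3} (h : PsiOK ϖ ε ψ θ)
    (hϖ : ∀ x, 0 ≤ ϖ x) (hε : ε ≤ ε') : PsiOK ϖ ε' ψ θ where
  smooth := h.smooth
  smooth' := h.smooth'
  left := h.left
  right := h.right
  b0 := fun x => (h.b0 x).trans (mul_le_mul_of_nonneg_right hε (hϖ x))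
  b1 := fun x => (h.b1 x).trans (mul_le_mul_of_nonneg_right hε (hϖ x))
  b2 := fun x => (h.b2 x).trans (mul_le_mul_of_nonneg_right hε (hϖ x))
  far := h.far
  flat := h.flat

lemma final_arith {A ε w T S V D : ℝ} (hA1 : 1 ≤ A) (hε0 : 0 < ε)
    (hε : ε * A * 1000000000 ≤ 1) (w1 : w ≤ A) (w3 : w ≤ A * T)
    (hTS : T ≤ 8 * S ^ 2) (hS : 0 < S) (hS200 : S ≤ 200) (hV : 0 < V)
    (hd : V / 2 ≤ D) :
    0 < 2 * D ^ 2 - 168 * (ε * w * V ^ 2) - 19200 * (ε * w * V ^ 2) / S := by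
  have hV2 : 0 < V ^ 2 := by positivity
  have hA0 : 0 < A := by linarith
  have b1 : ε * w ≤ 1 / 1000000000 := by
    have : ε * w ≤ ε * A := mul_le_mul_of_nonneg_left w1 hε0.le
    linarith
  have a1 : w ≤ A * (8 * S ^ 2) := w3.trans (mul_le_mul_of_nonneg_left hTS hA0.le)
  have a2 : w ≤ A * (8 * (S * 200)) := by
    refine a1.trans (mul_le_mul_of_nonneg_left ?_ hA0.le)
    have : S ^ 2 ≤ S * 200 := by
      rw [sq]; exact mul_le_mul_of_nonneg_left hS200 hS.le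
    linarith
  have a3 : ε * w ≤ ε * (A * (8 * (S * 200))) := mul_le_mul_of_nonneg_left a2 hε0.le
  have a5 : ε * (A * (8 * (S * 200))) ≤ 1 / 100000 * S := by
    have e : ε * (A * (8 * (S * 200))) = (ε * A * 1600) * S := by ring
    rw [e]
    exact mul_le_mul_of_nonneg_right (by linarith) hS.le
  have a7 : ε * w * V ^ 2 ≤ 1 / 100000 * S * V ^ 2 :=
    mul_le_mul_of_nonneg_right (a3.trans a5) hV2.le
  have hES : 19200 * (ε * w * V ^ 2) / S ≤ 1 / 4 * V ^ 2 := by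
    rw [div_le_iff₀ hS]
    have hp : 0 < S * V ^ 2 := by positivity
    calc 19200 * (ε * w * V ^ 2) ≤ 19200 * (1 / 100000 * S * V ^ 2) :=
          mul_le_mul_of_nonneg_left a7 (by norm_num)
      _ = 19200 / 100000 * (S * V ^ 2) := by ring
      _ ≤ 1 / 4 * (S * V ^ 2) := mul_le_mul_of_nonneg_right (by norm_num) hp.le
      _ = 1 / 4 * V ^ 2 * S := by ring
  have hE168 : 168 * (ε * w * V ^ 2) ≤ 1 / 8 * V ^ 2 := by
    have : ε * w * V ^ 2 ≤ 1 / 1000000000 * V ^ 2 := mul_le_mul_of_nonneg_right b1 hV2.le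
    linarith
  have hd2 : V ^ 2 / 4 ≤ D ^ 2 := by
    have : (V / 2) ^ 2 ≤ D ^ 2 := pow_le_pow_left₀ (by positivity) hd 2
    linarith [show (V / 2) ^ 2 = V ^ 2 / 4 by ring]
  linarith

/-- The second derivative of `Λ` along the image of a segment is positive. -/
lemma phi2_pos {l A ε : ℝ} {ψ θ : E3 → E3} (hA1 : 1 ≤ A)
    (hA : ∀ z : E3, ‖z‖ ≤ 10 → varpi l z ≤ A ∧ (0 ≤ tt z → varpi l z ≤ A * tt z))
    (hε0 : 0 < ε) (hε : ε * A * 1000000000 ≤ 1) (hψ : PsiOK (varpi l) ε ψ θ)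
    (htt : ∀ x, tt x = 4 * (ell 0 x * ell 1 x * ell 2 x))
    (hsg : ∀ x j, (0 < ell j x → ell j x / 2 ≤ ell j (ψ x)))
    {z v : E3} (hz : ‖z‖ ≤ 10) (hzP : z ∈ PrismO) (hv : v ≠ 0) :
    0 < phi2 (ψ z) (fderiv ℝ ψ z v) (fderiv ℝ (fderiv ℝ ψ) z v v) := by
  obtain ⟨w1, w2⟩ := hA z hz
  have hz0 := hzP 0
  have hz1 := hzP 1
  have hz2 := hzP 2
  have htz : 0 < tt z := by rw [htt]; positivity
  have w3 := w2 htz.le
  have hw := varpi_nonneg l z
  have hvn : 0 < ‖v‖ := norm_pos_iff.mpr hv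
  have hεA : ε * varpi l z ≤ 1 / 1000000000 := by
    have : ε * varpi l z ≤ ε * A := mul_le_mul_of_nonneg_left w1 hε0.le
    linarith
  have q0 : ell 0 z / 2 ≤ ell 0 (ψ z) := hsg z 0 hz0
  have q1 : ell 1 z / 2 ≤ ell 1 (ψ z) := hsg z 1 hz1
  have q2 : ell 2 z / 2 ≤ ell 2 (ψ z) := hsg z 2 hz2
  have hcP : ψ z ∈ PrismO := by
    intro j
    fin_cases j
    · show 0 < ell 0 (ψ z)
      linarith
    · show 0 < ell 1 (ψ z)
      linarith
    · show 0 < ell 2 (ψ z)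
      linarith
  have hcn : ‖ψ z‖ ≤ 12 := by
    have h1 : ‖ψ z‖ ≤ ‖ψ z - z‖ + ‖z‖ := by
      have := norm_add_le (ψ z - z) z
      simpa using this
    have h2 := hψ.b0 z
    linarith
  set E := ε * varpi l z * ‖v‖ ^ 2 with hEdef
  have hE0 : 0 ≤ E := by positivity
  have he : ‖fderiv ℝ (fderiv ℝ ψ) z v v‖ ≤ E := by
    have h1 := (fderiv ℝ (fderiv ℝ ψ) z v).le_opNorm v
    have h2 := (fderiv ℝ (fderiv ℝ ψ) z).le_opNorm v
    have h3 := hψ.b2 z
    have h4 : ‖fderiv ℝ (fderiv ℝ ψ) z v‖ ≤ ε * varpi l z * ‖v‖ :=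
      h2.trans (mul_le_mul_of_nonneg_right h3 hvn.le)
    calc ‖fderiv ℝ (fderiv ℝ ψ) z v v‖ ≤ ‖fderiv ℝ (fderiv ℝ ψ) z v‖ * ‖v‖ := h1
      _ ≤ ε * varpi l z * ‖v‖ * ‖v‖ := mul_le_mul_of_nonneg_right h4 hvn.le
      _ = E := by rw [hEdef]; ring
  have hd : ‖v‖ / 2 ≤ ‖fderiv ℝ ψ z v‖ := by
    have h1 := (fderiv ℝ ψ z - ContinuousLinearMap.id ℝ E3).le_opNorm v
    have h2 := hψ.b1 z
    have h3 : ‖(fderiv ℝ ψ z - ContinuousLinearMap.id ℝ E3) v‖ ≤ 1 / 2 * ‖v‖ :=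
      h1.trans (mul_le_mul_of_nonneg_right (by linarith) hvn.le)
    have h4 : v = fderiv ℝ ψ z v - (fderiv ℝ ψ z - ContinuousLinearMap.id ℝ E3) v := by
      simp
    have h5 : ‖v‖ ≤ ‖fderiv ℝ ψ z v‖ + ‖(fderiv ℝ ψ z - ContinuousLinearMap.id ℝ E3) v‖ := by
      conv_lhs => rw [h4]
      exact norm_sub_le _ _
    linarith
  have key := phi2_lower (d := fderiv ℝ ψ z v) hcP hcn he
  have hpos : 0 < 4 * (ell 0 (ψ z) * ell 1 (ψ z) * ell 2 (ψ z)) := by
    have := hcP 0; have := hcP 1; have := hcP 2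
    positivity
  set S := √(4 * (ell 0 (ψ z) * ell 1 (ψ z) * ell 2 (ψ z))) with hS
  have hSpos : 0 < S := Real.sqrt_pos.mpr hpos
  have hS2 : S ^ 2 = 4 * (ell 0 (ψ z) * ell 1 (ψ z) * ell 2 (ψ z)) := Real.sq_sqrt hpos.le
  have hTS : tt z ≤ 8 * S ^ 2 := by
    rw [htt, hS2]
    have a1 : ell 0 z / 2 * (ell 1 z / 2) ≤ ell 0 (ψ z) * ell 1 (ψ z) :=
      mul_le_mul q0 q1 (by positivity) (by have := hcP 0; positivity)
    have a2 : ell 0 z / 2 * (ell 1 z / 2) * (ell 2 z / 2)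
        ≤ ell 0 (ψ z) * ell 1 (ψ z) * ell 2 (ψ z) :=
      mul_le_mul a1 q2 (by positivity) (by have := hcP 0; have := hcP 1; positivity)
    have e : ell 0 z / 2 * (ell 1 z / 2) * (ell 2 z / 2)
        = (ell 0 z * ell 1 z * ell 2 z) / 8 := by ring
    rw [e] at a2
    linarith
  have hS200 : S ≤ 200 := by
    have b0 := ell_le 0 hcn
    have b1 := ell_le 1 hcn
    have b2 := ell_le 2 hcn
    have p0 := hcP 0
    have p1 := hcP 1
    have p2 := hcP 2
    have a1 : ell 0 (ψ z) * ell 1 (ψ z) ≤ 20 * 20 :=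
      mul_le_mul b0 b1 p1.le (by norm_num)
    have a2 : ell 0 (ψ z) * ell 1 (ψ z) * ell 2 (ψ z) ≤ 20 * 20 * 20 :=
      mul_le_mul a1 b2 p2.le (by norm_num)
    refine abs_le_of_sq_le_sq' ?_ (by norm_num) |>.2
    rw [hS2]
    linarith
  exact lt_of_lt_of_le (final_arith hA1 hε0 hε w1 w3 hTS hSpos hS200 hvn hd) key

lemma continuous_ell (j : Fin 3) : Continuous (ell j) := by
  fin_cases j
  · show Continuous (fun x : E3 => 1 - x 1)
    fun_prop
  · show Continuous (fun x : E3 => 1 + (x 1 + √3 * x 0) / 2)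
    fun_prop
  · show Continuous (fun x : E3 => 1 + (x 1 - √3 * x 0) / 2)
    fun_prop

lemma continuous_mm : Continuous mm := by
  unfold mm nn
  fun_prop

lemma continuous_Lam : Continuous Lam := by
  unfold Lam
  have := continuous_mm
  have := continuous_tt
  fun_prop

lemma ell_combo (j : Fin 3) (x y : E3) (t : ℝ) :
    ell j ((1 - t) • x + t • y) = (1 - t) * ell j x + t * ell j y := by
  fin_cases j
  · show 1 - ((1 - t) • x + t • y) 1 = (1 - t) * (1 - x 1) + t * (1 - y 1)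
    simp; ring
  · show 1 + (((1 - t) • x + t • y) 1 + √3 * ((1 - t) • x + t • y) 0) / 2
      = (1 - t) * (1 + (x 1 + √3 * x 0) / 2) + t * (1 + (y 1 + √3 * y 0) / 2)
    simp; ring
  · show 1 + (((1 - t) • x + t • y) 1 - √3 * ((1 - t) • x + t • y) 0) / 2
      = (1 - t) * (1 + (x 1 - √3 * x 0) / 2) + t * (1 + (y 1 - √3 * y 0) / 2)
    simp; ring

/-- the preimage of the hull lies in the ball of radius 10 -/
lemma norm_le_of_psi_hull {l ε : ℝ} {ψ θ : E3 → E3} (hreg : SigRegStatement)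
    (hψ : PsiOK (varpi l) ε ψ θ) {x : E3} (hx : ψ x ∈ Hull) : ‖x‖ ≤ 10 := by
  by_contra hcon
  have h1 : ψ x = x := hψ.far x (le_of_lt (not_le.mp hcon))
  rw [h1] at hx
  have := hreg.2.2.2.2.2.2.1 x hx
  exact hcon (by linarith)

/-- **The second derivative estimate.**  `Λ ∘ ψ` is strictly convex on segments. -/
theorem phi_strictConvex (hreg : SigRegStatement) (hsign : SignStatement) :
    ∀ l : ℝ, 0 < l → l ≤ 1 / 100 → ∃ ε > 0, ∀ ψ θ : E3 → E3, PsiOK (varpi l) ε ψ θ →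
      ∀ x y, ψ x ∈ Hull → ψ y ∈ Hull → x ≠ y →
        (∀ t : ℝ, 0 < t → t < 1 → (1 - t) • x + t • y ∈ PrismO) →
        StrictConvexOn ℝ (Icc 0 1) (fun t : ℝ => Lam (ψ ((1 - t) • x + t • y))) := by
  intro l hl hl1
  obtain ⟨ε₁, hε₁, H1⟩ := hsign l hl hl1
  obtain ⟨A, hA1, hA⟩ := weight_bounds l
  have hA0 : 0 < A := by linarith
  refine ⟨min ε₁ (1 / (A * 1000000000)), lt_min hε₁ (by positivity), ?_⟩
  set ε := min ε₁ (1 / (A * 1000000000)) with hεdef
  have hε0 : 0 < ε := lt_min hε₁ (by positivity)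
  have hεA : ε * A * 1000000000 ≤ 1 := by
    have h1 : ε ≤ 1 / (A * 1000000000) := min_le_right _ _
    rw [le_div_iff₀ (by positivity)] at h1
    linarith
  intro ψ θ hψ x y hx hy hxy hP
  have hsg : ∀ x j, (0 < ell j x → ell j x / 2 ≤ ell j (ψ x)) := fun x j =>
    (H1 ψ θ (PsiOK.mono hψ (varpi_nonneg l) (min_le_left _ _)) x j).1
  have htt := hreg.1
  have hxn := norm_le_of_psi_hull hreg hψ hx
  have hyn := norm_le_of_psi_hull hreg hψ hy
  set v := y - x with hv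
  have hv0 : v ≠ 0 := sub_ne_zero.mpr hxy.symm
  have hzd : ∀ t : ℝ, HasDerivAt (fun s : ℝ => (1 - s) • x + s • y) v t := by
    intro t
    have h1 : HasDerivAt (fun s : ℝ => (1 - s)) (-1) t := by
      simpa using (hasDerivAt_id t).const_sub 1
    have h2 := (h1.smul_const x).add ((hasDerivAt_id t).smul_const y)
    refine h2.congr_deriv ?_
    rw [hv]; simp; abel
  have hψd : Differentiable ℝ ψ := hψ.smooth.differentiable (by simp)
  have hψd2 : Differentiable ℝ (fderiv ℝ ψ) :=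
    (hψ.smooth.fderiv_right (m := ∞) (by simp)).differentiable (by simp)
  have hc : ∀ t : ℝ, HasDerivAt (fun s : ℝ => ψ ((1 - s) • x + s • y))
      (fderiv ℝ ψ ((1 - t) • x + t • y) v) t := fun t =>
    (hψd _).hasFDerivAt.comp_hasDerivAt t (hzd t)
  have hd : ∀ t : ℝ, HasDerivAt (fun s : ℝ => fderiv ℝ ψ ((1 - s) • x + s • y) v)
      (fderiv ℝ (fderiv ℝ ψ) ((1 - t) • x + t • y) v v) t := fun t => by
    have h1 : HasDerivAt (fun s : ℝ => fderiv ℝ ψ ((1 - s) • x + s • y))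
        (fderiv ℝ (fderiv ℝ ψ) ((1 - t) • x + t • y) v) t :=
      (hψd2 _).hasFDerivAt.comp_hasDerivAt t (hzd t)
    have h2 := h1.clm_apply (hasDerivAt_const t v)
    simpa using h2
  have hzn : ∀ t : ℝ, 0 < t → t < 1 → ‖(1 - t) • x + t • y‖ ≤ 10 := by
    intro t h0 h1
    calc ‖(1 - t) • x + t • y‖ ≤ ‖(1 - t) • x‖ + ‖t • y‖ := norm_add_le _ _
      _ = (1 - t) * ‖x‖ + t * ‖y‖ := by
          rw [norm_smul, norm_smul, Real.norm_of_nonneg (by linarith), Real.norm_of_nonneg h0.le]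
      _ ≤ (1 - t) * 10 + t * 10 := by
          apply add_le_add
          · exact mul_le_mul_of_nonneg_left hxn (by linarith)
          · exact mul_le_mul_of_nonneg_left hyn h0.le
      _ = 10 := by ring
  have hcP : ∀ t : ℝ, 0 < t → t < 1 → ψ ((1 - t) • x + t • y) ∈ PrismO := by
    intro t h0 h1 j
    have h2 := hP t h0 h1 j
    have h3 := hsg _ j h2
    linarith
  have hphi1 : ∀ t : ℝ, 0 < t → t < 1 → HasDerivAt (fun s : ℝ => Lam (ψ ((1 - s) • x + s • y)))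
      (phi1 (ψ ((1 - t) • x + t • y)) (fderiv ℝ ψ ((1 - t) • x + t • y) v)) t :=
    fun t h0 h1 => hasDerivAt_Lam htt (hc t) (hcP t h0 h1)
  have hphi2 : ∀ t : ℝ, 0 < t → t < 1 → HasDerivAt
      (fun s : ℝ => phi1 (ψ ((1 - s) • x + s • y)) (fderiv ℝ ψ ((1 - s) • x + s • y) v))
      (phi2 (ψ ((1 - t) • x + t • y)) (fderiv ℝ ψ ((1 - t) • x + t • y) v)
        (fderiv ℝ (fderiv ℝ ψ) ((1 - t) • x + t • y) v v)) t :=
    fun t h0 h1 => hasDerivAt_phi1
      (c := fun s : ℝ => ψ ((1 - s) • x + s • y))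
      (d := fun s : ℝ => fderiv ℝ ψ ((1 - s) • x + s • y) v) (hc t) (hd t) (hcP t h0 h1)
  have hpos : ∀ t : ℝ, 0 < t → t < 1 →
      0 < phi2 (ψ ((1 - t) • x + t • y)) (fderiv ℝ ψ ((1 - t) • x + t • y) v)
        (fderiv ℝ (fderiv ℝ ψ) ((1 - t) • x + t • y) v v) := fun t h0 h1 =>
    phi2_pos hA1 hA hε0 hεA hψ htt hsg (hzn t h0 h1) (hP t h0 h1) hv0
  apply StrictMonoOn.strictConvexOn_of_deriv (convex_Icc 0 1)
  · apply Continuous.continuousOn
    exact continuous_Lam.comp (hψ.smooth.continuous.comp (by fun_prop))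
  · rw [interior_Icc]
    have hmono : StrictMonoOn
        (fun s : ℝ => phi1 (ψ ((1 - s) • x + s • y)) (fderiv ℝ ψ ((1 - s) • x + s • y) v))
        (Ioo 0 1) := by
      apply strictMonoOn_of_deriv_pos (convex_Ioo 0 1)
      · intro t ht
        exact (hphi2 t ht.1 ht.2).continuousAt.continuousWithinAt
      · intro t ht
        rw [interior_Ioo] at ht
        rw [(hphi2 t ht.1 ht.2).deriv]
        exact hpos t ht.1 ht.2
    intro a ha b hb hab
    rw [(hphi1 a ha.1 ha.2).deriv, (hphi1 b hb.1 hb.2).deriv]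
    exact hmono ha hb hab

/-- `Λ` is differentiable on the open prism. -/
lemma differentiableAt_Lam (htt : ∀ x, tt x = 4 * (ell 0 x * ell 1 x * ell 2 x)) {x : E3}
    (hx : x ∈ PrismO) : DifferentiableAt ℝ Lam x := by
  have hpos : tt x ≠ 0 := by
    have := hx 0; have := hx 1; have := hx 2
    rw [htt]; positivity
  have h1 : Differentiable ℝ tt := by
    unfold tt nn cc
    fun_prop
  have h2 : Differentiable ℝ mm := by
    unfold mm nn
    fun_prop
  unfold Lam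
  exact (h2 x).sub (((h1 x).sqrt hpos).const_mul 4)

/-- Points whose image is in the prism are in the prism. -/
lemma ell_nonneg_of_psi {ψ : E3 → E3} {x : E3}
    (H : ∀ j, (0 < ell j x → ell j x / 2 ≤ ell j (ψ x)) ∧ (ell j x = 0 → ψ x = x) ∧
      (ell j x < 0 → ell j (ψ x) < 0)) (h : ψ x ∈ Prism) (j : Fin 3) : 0 ≤ ell j x := by
  by_contra hcon
  have h1 := (H j).2.2 (not_le.mp hcon)
  have h2 := h j
  linarith

lemma ell_pos_of_psi {ψ : E3 → E3} {x : E3}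
    (H : ∀ j, (0 < ell j x → ell j x / 2 ≤ ell j (ψ x)) ∧ (ell j x = 0 → ψ x = x) ∧
      (ell j x < 0 → ell j (ψ x) < 0)) (h : ψ x ∈ PrismO) (j : Fin 3) : 0 < ell j x := by
  have h0 : 0 ≤ ell j x := ell_nonneg_of_psi H (fun i => (h i).le) j
  rcases h0.lt_or_eq with h1 | h1
  · exact h1
  · have h2 := (H j).2.1 h1.symm
    have h3 := h j
    rw [h2] at h3
    exact h3

/-- **GRADHULL** -/
theorem gradHull (hreg : SigRegStatement) (hsign : SignStatement) : GradHullStatement := by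
  intro l hl hl1
  obtain ⟨ε₁, hε₁, H1⟩ := hsign l hl hl1
  obtain ⟨ε₂, hε₂, H2⟩ := phi_strictConvex hreg hsign l hl hl1
  refine ⟨min ε₁ ε₂, lt_min hε₁ hε₂, ?_⟩
  intro ψ θ hψ x hxP hx0
  have hsg := H1 ψ θ (PsiOK.mono hψ (varpi_nonneg l) (min_le_left _ _))
  have hcv := H2 ψ θ (PsiOK.mono hψ (varpi_nonneg l) (min_le_right _ _))
  have hψd : Differentiable ℝ ψ := hψ.smooth.differentiable (by simp)
  have hdiff : DifferentiableAt ℝ (fun z => Lam (ψ z)) x :=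
    (differentiableAt_Lam hreg.1 hxP).comp x (hψd x)
  refine ⟨hdiff, fun y hy hyx => ?_⟩
  have hxH : ψ x ∈ Hull := ⟨fun j => (hxP j).le, hx0.le⟩
  have hpx : ∀ j, 0 < ell j x := ell_pos_of_psi (fun j => hsg x j) hxP
  have hpy : ∀ j, 0 ≤ ell j y := ell_nonneg_of_psi (fun j => hsg y j) hy.1
  have hP : ∀ t : ℝ, 0 < t → t < 1 → (1 - t) • x + t • y ∈ PrismO := by
    intro t h0 h1 j
    rw [ell_combo]
    have a := mul_pos (sub_pos.mpr h1) (hpx j)
    have b := mul_nonneg h0.le (hpy j)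
    linarith
  have hsc := hcv x y hxH hy hyx.symm hP
  have hzd : HasDerivAt (fun s : ℝ => (1 - s) • x + s • y) (y - x) 0 := by
    have h1 : HasDerivAt (fun s : ℝ => (1 - s)) (-1) 0 := by
      simpa using (hasDerivAt_id (0 : ℝ)).const_sub 1
    have h2 := (h1.smul_const x).add ((hasDerivAt_id (0 : ℝ)).smul_const y)
    refine h2.congr_deriv ?_
    simp; abel
  have hder : HasDerivAt (fun s : ℝ => Lam (ψ ((1 - s) • x + s • y)))
      (fderiv ℝ (fun z => Lam (ψ z)) x (y - x)) 0 := by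
    have h1 : HasFDerivAt (fun z => Lam (ψ z)) (fderiv ℝ (fun z => Lam (ψ z)) x)
        ((1 - (0 : ℝ)) • x + (0 : ℝ) • y) := by
      simpa using hdiff.hasFDerivAt
    exact h1.comp_hasDerivAt (0 : ℝ) hzd
  have hlt := hsc.lt_slope_of_hasDerivAt (x := 0) (y := 1) (by simp) (by simp) (by norm_num)
    hder
  have hsl : slope (fun s : ℝ => Lam (ψ ((1 - s) • x + s • y))) 0 1 = Lam (ψ y) := by
    simp [slope, hx0]
  rw [hsl] at hlt
  exact lt_of_lt_of_le hlt hy.2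

end

end Pool.Agent.Tight.H50
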